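import Pool.Agent.Helper87.NF.StD

/-!
# Calculus tools for the certificates (helper42)
-/

set_option autoImplicit false
set_option maxSynthPendingDepth 3

open MeasureTheory Complex Filter Topology
open scoped ENNReal NNReal ComplexConjugate

noncomputable section

namespace Helper87.NF.H42

open Helper85.IW Helper87.NF

/-! ### calculus of `lin2` -/

theorem hf_of {f : ℝ × ℝ → ℝ} {D : ℝ × ℝ →L[ℝ] ℝ} {x : ℝ × ℝ} {u v : ℝ} (h : HasFDerivAt f D x)
    (hu : D (1, 0) = u) (hv : D (0, 1) = v) : HasFDerivAt f (lin2 u v) x := by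
  have e : D = lin2 u v := by
    refine ContinuousLinearMap.ext fun y => ?_
    have h1 : y = y.1 • ((1 : ℝ), (0 : ℝ)) + y.2 • ((0 : ℝ), (1 : ℝ)) := by
      ext <;> simp
    rw [h1, map_add, map_smul, map_smul, hu, hv, ← h1, lin2_apply]
    simp only [smul_eq_mul]
    ring
  rw [← e]
  exact h

theorem hf_congr {f : ℝ × ℝ → ℝ} {u v u' v' : ℝ} {x : ℝ × ℝ}
    (h : HasFDerivAt f (lin2 u v) x) (hu : u = u') (hv : v = v') :
    HasFDerivAt f (lin2 u' v') x := by
  subst hu hv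
  exact h

theorem hf_fst (x : ℝ × ℝ) : HasFDerivAt (fun x : ℝ × ℝ => x.1) (lin2 1 0) x :=
  hf_of (hasFDerivAt_fst (𝕜 := ℝ) (p := x)) rfl rfl

theorem hf_snd (x : ℝ × ℝ) : HasFDerivAt (fun x : ℝ × ℝ => x.2) (lin2 0 1) x :=
  hf_of (hasFDerivAt_snd (𝕜 := ℝ) (p := x)) rfl rfl

theorem hf_const (c : ℝ) (x : ℝ × ℝ) : HasFDerivAt (fun _ : ℝ × ℝ => c) (lin2 0 0) x :=
  hf_of (hasFDerivAt_const (𝕜 := ℝ) c x) rfl rfl

theorem hf_add {f g : ℝ × ℝ → ℝ} {u v u' v' : ℝ} {x : ℝ × ℝ}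
    (hf : HasFDerivAt f (lin2 u v) x) (hg : HasFDerivAt g (lin2 u' v') x) :
    HasFDerivAt (fun x => f x + g x) (lin2 (u + u') (v + v')) x :=
  hf_of (hf.add hg) (by simp [lin2_apply]) (by simp [lin2_apply])

theorem hf_sub {f g : ℝ × ℝ → ℝ} {u v u' v' : ℝ} {x : ℝ × ℝ}
    (hf : HasFDerivAt f (lin2 u v) x) (hg : HasFDerivAt g (lin2 u' v') x) :
    HasFDerivAt (fun x => f x - g x) (lin2 (u - u') (v - v')) x :=
  hf_of (hf.sub hg) (by simp [lin2_apply]) (by simp [lin2_apply])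

theorem hf_neg {f : ℝ × ℝ → ℝ} {u v : ℝ} {x : ℝ × ℝ} (hf : HasFDerivAt f (lin2 u v) x) :
    HasFDerivAt (fun x => -f x) (lin2 (-u) (-v)) x :=
  hf_of hf.neg (by simp [lin2_apply]) (by simp [lin2_apply])

theorem hf_mul {f g : ℝ × ℝ → ℝ} {u v u' v' : ℝ} {x : ℝ × ℝ}
    (hf : HasFDerivAt f (lin2 u v) x) (hg : HasFDerivAt g (lin2 u' v') x) :
    HasFDerivAt (fun x => f x * g x) (lin2 (f x * u' + g x * u) (f x * v' + g x * v)) x :=
  hf_of (hf.mul hg) (by simp [lin2_apply]) (by simp [lin2_apply])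

theorem hf_cmul (c : ℝ) {f : ℝ × ℝ → ℝ} {u v : ℝ} {x : ℝ × ℝ} (hf : HasFDerivAt f (lin2 u v) x) :
    HasFDerivAt (fun x => c * f x) (lin2 (c * u) (c * v)) x :=
  hf_of (hf.const_mul c) (by simp [lin2_apply]) (by simp [lin2_apply])

theorem hf_comp {f : ℝ × ℝ → ℝ} {φ : ℝ → ℝ} {φ' u v : ℝ} {x : ℝ × ℝ}
    (hf : HasFDerivAt f (lin2 u v) x) (hφ : HasDerivAt φ φ' (f x)) :
    HasFDerivAt (fun x => φ (f x)) (lin2 (φ' * u) (φ' * v)) x :=
  hf_of (hφ.comp_hasFDerivAt x hf) (by simp [lin2_apply]) (by simp [lin2_apply])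

/-! ### one variable -/

theorem hd_self_mul {g : ℝ → ℝ} (h : ContinuousAt g 0) :
    HasDerivAt (fun y => y * g y) (g 0) 0 := by
  rw [hasDerivAt_iff_tendsto_slope]
  refine (h.tendsto.mono_left nhdsWithin_le_nhds).congr' ?_
  filter_upwards [self_mem_nhdsWithin] with y hy
  have hy' : y ≠ 0 := hy
  rw [slope_def_field]
  field_simp
  simp

theorem hd_maxsq (y : ℝ) : HasDerivAt (fun y : ℝ => (max y 0) ^ 2) (2 * max y 0) y := by
  rcases lt_trichotomy y 0 with h | h | h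
  · rw [max_eq_right h.le, mul_zero]
    refine (hasDerivAt_const y (0 : ℝ)).congr_of_eventuallyEq ?_
    filter_upwards [gt_mem_nhds h] with z hz
    rw [max_eq_right hz.le]
    simp
  · subst h
    have h1 := hd_self_mul (g := fun y : ℝ => max y 0)
      (continuous_id.max continuous_const).continuousAt
    have e : (fun y : ℝ => (max y 0) ^ 2) = fun y => y * max y 0 := by
      funext y
      rcases le_total y 0 with h | h
      · rw [max_eq_right h]
        simp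
      · rw [max_eq_left h, pow_two]
    rw [e]
    simpa using h1
  · rw [max_eq_left h.le]
    have h1 : HasDerivAt (fun y : ℝ => y ^ 2) (2 * y) y := by simpa using hasDerivAt_pow 2 y
    refine h1.congr_of_eventuallyEq ?_
    filter_upwards [lt_mem_nhds h] with z hz
    rw [max_eq_left hz.le]

theorem mvt {f f' : ℝ → ℝ} {a b C : ℝ} (hab : a ≤ b) (hc : ContinuousOn f (Set.Icc a b))
    (hd : ∀ x ∈ Set.Ioo a b, HasDerivAt f (f' x) x) (hC : ∀ x ∈ Set.Ioo a b, |f' x| ≤ C) :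
    |f b - f a| ≤ C * (b - a) := by
  rcases hab.eq_or_lt with h | h
  · subst h
    simp
  · obtain ⟨c, hc1, hc2⟩ := exists_hasDerivAt_eq_slope f f' h hc hd
    have h1 : 0 < b - a := by linarith
    have h2 : f b - f a = f' c * (b - a) := by
      rw [hc2]
      field_simp
    rw [h2, abs_mul, abs_of_pos h1]
    exact mul_le_mul_of_nonneg_right (hC c hc1) h1.le

/-! ### the primitives of a weight -/

section wt

variable {P P' : ℝ → ℝ} {q κ K : ℝ}

theorem P_nonneg (hW : Wt P P' q κ K) (y : ℝ) : 0 ≤ P y := by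
  rcases le_or_gt y 0 with h | h
  · rw [hW.zero y h]
  · exact (hW.pos y h).le

theorem hd_G (hW1 : StW1) (hW : Wt P P' q κ K) (y : ℝ) :
    HasDerivAt (fun y => y * Bw P y) (Bw P y + P y) y := by
  obtain ⟨hA, hC, hM, hB, hBc, h0⟩ := hW1 P P' q κ K hW
  rcases lt_trichotomy y 0 with h | h | h
  · rw [(h0 y h.le).2.1, hW.zero y h.le, add_zero]
    refine (hasDerivAt_const y (0 : ℝ)).congr_of_eventuallyEq ?_
    filter_upwards [gt_mem_nhds h] with z hz
    rw [(h0 z hz.le).2.1, mul_zero]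
  · subst h
    have h1 := hd_self_mul (g := Bw P) hBc.continuousAt
    rw [hW.zero 0 le_rfl, add_zero]
    exact h1
  · have h1 := (hasDerivAt_id y).mul (hB y h)
    have e : 1 * Bw P y + y * (P y / y) = Bw P y + P y := by field_simp
    simp only [id] at h1
    rw [e] at h1
    exact h1

theorem A_diff (hW1 : StW1) (hW : Wt P P' q κ K) {x y : ℝ} (h : x ≤ y) :
    0 ≤ Aw P y - Aw P x ∧ Aw P y - Aw P x ≤ K * (y - x) := by
  obtain ⟨hA, hC, hM, hB, hBc, h0⟩ := hW1 P P' q κ K hW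
  constructor
  · have h1 : Monotone (Aw P) := monotone_of_deriv_nonneg (fun z => (hA z).differentiableAt)
      fun z => by
        rw [(hA z).deriv]
        exact P_nonneg hW z
    linarith [h1 h]
  · have hd : ∀ z, HasDerivAt (fun z => K * z - Aw P z) (K - P z) z := fun z => by
      have h1 : HasDerivAt (fun z => K * z) K z := by simpa using (hasDerivAt_id z).const_mul K
      exact h1.sub (hA z)
    have h1 : Monotone (fun z => K * z - Aw P z) :=
      monotone_of_deriv_nonneg (fun z => (hd z).differentiableAt) fun z => by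
        rw [(hd z).deriv]
        linarith [hW.bd z]
    have h2 := h1 h
    simp only at h2
    linarith

theorem hf_half_add (x : ℝ × ℝ) :
    HasFDerivAt (fun x : ℝ × ℝ => (x.1 + x.2) / 2) (lin2 (1 / 2) (1 / 2)) x := by
  have h := hf_cmul (1 / 2) (hf_add (hf_fst x) (hf_snd x))
  have e : (fun x : ℝ × ℝ => (x.1 + x.2) / 2) = fun x => 1 / 2 * (x.1 + x.2) := by
    funext x
    ring
  rw [e]
  exact hf_congr h (by norm_num) (by norm_num)

theorem hf_half_sub (x : ℝ × ℝ) :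
    HasFDerivAt (fun x : ℝ × ℝ => (x.1 - x.2) / 2) (lin2 (1 / 2) (-(1 / 2))) x := by
  have h := hf_cmul (1 / 2) (hf_sub (hf_fst x) (hf_snd x))
  have e : (fun x : ℝ × ℝ => (x.1 - x.2) / 2) = fun x => 1 / 2 * (x.1 - x.2) := by
    funext x
    ring
  rw [e]
  exact hf_congr h (by norm_num) (by norm_num)

/-- the compensator -/
theorem hf_cmp {τ : ℝ} (hτ : 0 < τ) {x : ℝ × ℝ} (hx : 0 < x.2) :
    HasFDerivAt (fun x : ℝ × ℝ => cmp τ x.1 x.2)
      (lin2 (-(max (τ * x.2 - x.1) 0) / (τ * x.2))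
        (max (τ * x.2 - x.1) 0 * (2 * τ * x.2 - max (τ * x.2 - x.1) 0) / (2 * τ * x.2 ^ 2))) x := by
  have h1 : HasFDerivAt (fun x : ℝ × ℝ => τ * x.2 - x.1) (lin2 (-1) τ) x :=
    hf_congr (hf_sub (hf_cmul τ (hf_snd x)) (hf_fst x)) (by norm_num) (by norm_num)
  have h2 := hf_comp h1 (hd_maxsq (τ * x.2 - x.1))
  have h3 : HasFDerivAt (fun x : ℝ × ℝ => (2 * τ * x.2)⁻¹) _ x :=
    hf_comp (hf_cmul (2 * τ) (hf_snd x)) (hasDerivAt_inv (by positivity))
  have h4 := hf_mul h2 h3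
  have e : (fun x : ℝ × ℝ => cmp τ x.1 x.2) =
      fun x => (max (τ * x.2 - x.1) 0) ^ 2 * (2 * τ * x.2)⁻¹ := by
    funext x
    unfold cmp
    rw [div_eq_mul_inv]
  rw [e]
  refine hf_congr h4 ?_ ?_
  · field_simp
    ring
  · field_simp
    ring

/-- the compensator with exchanged arguments -/
theorem hf_cmp' {τ : ℝ} (hτ : 0 < τ) {x : ℝ × ℝ} (hx : 0 < x.1) :
    HasFDerivAt (fun x : ℝ × ℝ => cmp τ x.2 x.1)
      (lin2 (max (τ * x.1 - x.2) 0 * (2 * τ * x.1 - max (τ * x.1 - x.2) 0) / (2 * τ * x.1 ^ 2))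
        (-(max (τ * x.1 - x.2) 0) / (τ * x.1))) x := by
  have h1 : HasFDerivAt (fun x : ℝ × ℝ => τ * x.1 - x.2) (lin2 τ (-1)) x :=
    hf_congr (hf_sub (hf_cmul τ (hf_fst x)) (hf_snd x)) (by norm_num) (by norm_num)
  have h2 := hf_comp h1 (hd_maxsq (τ * x.1 - x.2))
  have h3 : HasFDerivAt (fun x : ℝ × ℝ => (2 * τ * x.1)⁻¹) _ x :=
    hf_comp (hf_cmul (2 * τ) (hf_fst x)) (hasDerivAt_inv (by positivity))
  have h4 := hf_mul h2 h3
  have e : (fun x : ℝ × ℝ => cmp τ x.2 x.1) =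
      fun x => (max (τ * x.1 - x.2) 0) ^ 2 * (2 * τ * x.1)⁻¹ := by
    funext x
    unfold cmp
    rw [div_eq_mul_inv]
  rw [e]
  refine hf_congr h4 ?_ ?_
  · field_simp
    ring
  · field_simp
    ring

end wt

end Helper87.NF.H42

end
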