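import Pool.Agent.Helper42.NF.Base

/-!
# Derivatives of the H-type functions (helper42)
-/

set_option autoImplicit false
set_option maxSynthPendingDepth 3

open MeasureTheory Complex Filter Topology
open scoped ENNReal NNReal ComplexConjugate

noncomputable section

namespace Helper87.NF.H42

open Helper85.IW Helper87.NF

variable {P P' : ℝ → ℝ} {q κ K : ℝ}

theorem hf_A_add (hW1 : StW1) (hW : Wt P P' q κ K) (x : ℝ × ℝ) :
    HasFDerivAt (fun x : ℝ × ℝ => Aw P ((x.1 + x.2) / 2))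
      (lin2 (P ((x.1 + x.2) / 2) / 2) (P ((x.1 + x.2) / 2) / 2)) x :=
  hf_congr (hf_comp (hf_half_add x) ((hW1 P P' q κ K hW).1 _)) (by ring) (by ring)

theorem hf_A_sub (hW1 : StW1) (hW : Wt P P' q κ K) (x : ℝ × ℝ) :
    HasFDerivAt (fun x : ℝ × ℝ => Aw P ((x.1 - x.2) / 2))
      (lin2 (P ((x.1 - x.2) / 2) / 2) (-(P ((x.1 - x.2) / 2) / 2))) x :=
  hf_congr (hf_comp (hf_half_sub x) ((hW1 P P' q κ K hW).1 _)) (by ring) (by ring)

theorem hf_C_add (hW1 : StW1) (hW : Wt P P' q κ K) (x : ℝ × ℝ) :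
    HasFDerivAt (fun x : ℝ × ℝ => Cw P ((x.1 + x.2) / 2))
      (lin2 (Aw P ((x.1 + x.2) / 2) / 2) (Aw P ((x.1 + x.2) / 2) / 2)) x :=
  hf_congr (hf_comp (hf_half_add x) ((hW1 P P' q κ K hW).2.1 _)) (by ring) (by ring)

theorem hf_C_sub (hW1 : StW1) (hW : Wt P P' q κ K) (x : ℝ × ℝ) :
    HasFDerivAt (fun x : ℝ × ℝ => Cw P ((x.1 - x.2) / 2))
      (lin2 (Aw P ((x.1 - x.2) / 2) / 2) (-(Aw P ((x.1 - x.2) / 2) / 2))) x :=
  hf_congr (hf_comp (hf_half_sub x) ((hW1 P P' q κ K hW).2.1 _)) (by ring) (by ring)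

theorem hf_B_add (hW1 : StW1) (hW : Wt P P' q κ K) {x : ℝ × ℝ} (hx : 0 < x.1 + x.2) :
    HasFDerivAt (fun x : ℝ × ℝ => Bw P ((x.1 + x.2) / 2))
      (lin2 (P ((x.1 + x.2) / 2) / (x.1 + x.2)) (P ((x.1 + x.2) / 2) / (x.1 + x.2))) x :=
  hf_congr (hf_comp (hf_half_add x) ((hW1 P P' q κ K hW).2.2.2.1 _ (by linarith)))
    (by field_simp) (by field_simp)

theorem hf_A_fst (hW1 : StW1) (hW : Wt P P' q κ K) (x : ℝ × ℝ) :
    HasFDerivAt (fun x : ℝ × ℝ => Aw P (x.1 / 2)) (lin2 (P (x.1 / 2) / 2) 0) x := by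
  have h1 : HasFDerivAt (fun x : ℝ × ℝ => x.1 / 2) (lin2 (1 / 2) 0) x := by
    have h := hf_cmul (1 / 2) (hf_fst x)
    have e : (fun x : ℝ × ℝ => x.1 / 2) = fun x => 1 / 2 * x.1 := by
      funext x
      ring
    rw [e]
    exact hf_congr h (by norm_num) (by norm_num)
  exact hf_congr (hf_comp h1 ((hW1 P P' q κ K hW).1 _)) (by ring) (by ring)

theorem hf_A_snd (hW1 : StW1) (hW : Wt P P' q κ K) (x : ℝ × ℝ) :
    HasFDerivAt (fun x : ℝ × ℝ => Aw P (x.2 / 2)) (lin2 0 (P (x.2 / 2) / 2)) x := by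
  have h1 : HasFDerivAt (fun x : ℝ × ℝ => x.2 / 2) (lin2 0 (1 / 2)) x := by
    have h := hf_cmul (1 / 2) (hf_snd x)
    have e : (fun x : ℝ × ℝ => x.2 / 2) = fun x => 1 / 2 * x.2 := by
      funext x
      ring
    rw [e]
    exact hf_congr h (by norm_num) (by norm_num)
  exact hf_congr (hf_comp h1 ((hW1 P P' q κ K hW).1 _)) (by ring) (by ring)

theorem hf_P_fst (hW : Wt P P' q κ K) {x : ℝ × ℝ} (hx : 0 < x.1) :
    HasFDerivAt (fun x : ℝ × ℝ => P (x.1 / 2)) (lin2 (P' (x.1 / 2) / 2) 0) x := by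
  have h1 : HasFDerivAt (fun x : ℝ × ℝ => x.1 / 2) (lin2 (1 / 2) 0) x := by
    have h := hf_cmul (1 / 2) (hf_fst x)
    have e : (fun x : ℝ × ℝ => x.1 / 2) = fun x => 1 / 2 * x.1 := by
      funext x
      ring
    rw [e]
    exact hf_congr h (by norm_num) (by norm_num)
  exact hf_congr (hf_comp h1 (hW.der _ (by linarith))) (by ring) (by ring)

theorem hf_sq_fst (x : ℝ × ℝ) : HasFDerivAt (fun x : ℝ × ℝ => x.1 ^ 2) (lin2 (2 * x.1) 0) x := by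
  have h := hf_mul (hf_fst x) (hf_fst x)
  have e : (fun x : ℝ × ℝ => x.1 ^ 2) = fun x => x.1 * x.1 := by
    funext x
    ring
  rw [e]
  exact hf_congr h (by ring) (by ring)

theorem hf_sq_snd (x : ℝ × ℝ) : HasFDerivAt (fun x : ℝ × ℝ => x.2 ^ 2) (lin2 0 (2 * x.2)) x := by
  have h := hf_mul (hf_snd x) (hf_snd x)
  have e : (fun x : ℝ × ℝ => x.2 ^ 2) = fun x => x.2 * x.2 := by
    funext x
    ring
  rw [e]
  exact hf_congr h (by ring) (by ring)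

theorem hf_p1H (hW1 : StW1) (hW : Wt P P' q κ K) (ε : ℝ) {x : ℝ × ℝ} (hx : 0 < x.1 + x.2) :
    HasFDerivAt (p1H P ε)
      (lin2 (Bw P ((x.1 + x.2) / 2) + x.1 * (P ((x.1 + x.2) / 2) / (x.1 + x.2)) +
          P ((x.1 - x.2) / 2) + 2 * ε)
        (x.1 * (P ((x.1 + x.2) / 2) / (x.1 + x.2)) - P ((x.1 - x.2) / 2))) x := by
  have h := hf_add (hf_add (hf_mul (hf_fst x) (hf_B_add hW1 hW hx))
    (hf_cmul 2 (hf_A_sub hW1 hW x))) (hf_cmul (2 * ε) (hf_fst x))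
  exact hf_congr h (by ring) (by ring)

theorem hf_p2H (hW1 : StW1) (hW : Wt P P' q κ K) {x : ℝ × ℝ} (hx : 0 < x.1 + x.2) :
    HasFDerivAt (p2H P)
      (lin2 (-x.2 * (P ((x.1 + x.2) / 2) / (x.1 + x.2)) + P ((x.1 + x.2) / 2) -
          P ((x.1 - x.2) / 2))
        (-Bw P ((x.1 + x.2) / 2) - x.2 * (P ((x.1 + x.2) / 2) / (x.1 + x.2)) +
          P ((x.1 + x.2) / 2) + P ((x.1 - x.2) / 2))) x := by
  have h := hf_sub (hf_add (hf_mul (hf_neg (hf_snd x)) (hf_B_add hW1 hW hx))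
    (hf_cmul 2 (hf_A_add hW1 hW x))) (hf_cmul 2 (hf_A_sub hW1 hW x))
  exact hf_congr h (by ring) (by ring)

theorem hf_MH (hW1 : StW1) (hW : Wt P P' q κ K) (ε d1 : ℝ) {τ : ℝ} (hτ : 0 < τ) {x : ℝ × ℝ}
    (hx : 0 < x.1) :
    HasFDerivAt (MH P ε d1 τ)
      (lin2 (-2 * Aw P ((x.1 - x.2) / 2) - 2 * x.1 * P ((x.1 - x.2) / 2) - 2 * ε * x.1 -
          (2 - d1) * ((-(P (x.1 / 2) / 2) - x.1 * P' (x.1 / 2) / 2) * cmp τ x.2 x.1 +
            (Aw P (x.1 / 2) - x.1 * P (x.1 / 2)) *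
              (max (τ * x.1 - x.2) 0 * (2 * τ * x.1 - max (τ * x.1 - x.2) 0) / (2 * τ * x.1 ^ 2))))
        (2 * x.1 * P ((x.1 - x.2) / 2) - 2 * Aw P ((x.1 - x.2) / 2) +
          (2 - d1) * (Aw P (x.1 / 2) - x.1 * P (x.1 / 2)) *
            (max (τ * x.1 - x.2) 0 / (τ * x.1)))) x := by
  have h1 := hf_mul (hf_cmul (-4) (hf_fst x)) (hf_A_sub hW1 hW x)
  have h2 := hf_cmul 4 (hf_C_sub hW1 hW x)
  have h3 := hf_cmul (2 - d1) (hf_sub (hf_A_fst hW1 hW x) (hf_mul (hf_fst x) (hf_P_fst hW hx)))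
  have h4 := hf_mul h3 (hf_cmp' hτ hx)
  have h5 := hf_sub (hf_sub (hf_add h1 h2) h4) (hf_cmul ε (hf_sq_fst x))
  exact hf_congr h5 (by ring) (by ring)

theorem hf_NH (hW1 : StW1) (hW : Wt P P' q κ K) (ε d1 : ℝ) {τ : ℝ} (hτ : 0 < τ) {x : ℝ × ℝ}
    (hx : 0 < x.2) :
    HasFDerivAt (NH P ε d1 τ)
      (lin2 (2 * Aw P ((x.1 + x.2) / 2) - 2 * x.2 * P ((x.1 - x.2) / 2) -
          2 * Aw P ((x.1 - x.2) / 2) -
          (2 - d1) * Aw P (x.2 / 2) * (max (τ * x.2 - x.1) 0 / (τ * x.2)))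
        (2 * Aw P ((x.1 + x.2) / 2) - 2 * Aw P ((x.1 - x.2) / 2) + 2 * x.2 * P ((x.1 - x.2) / 2) +
          2 * ε * x.2 +
          (2 - d1) * (P (x.2 / 2) / 2 * cmp τ x.1 x.2 + Aw P (x.2 / 2) *
            (max (τ * x.2 - x.1) 0 * (2 * τ * x.2 - max (τ * x.2 - x.1) 0) /
              (2 * τ * x.2 ^ 2))))) x := by
  have h1 := hf_cmul 4 (hf_C_add hW1 hW x)
  have h2 := hf_mul (hf_cmul 4 (hf_snd x)) (hf_A_sub hW1 hW x)
  have h3 := hf_cmul 4 (hf_C_sub hW1 hW x)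
  have h4 := hf_mul (hf_cmul (2 - d1) (hf_A_snd hW1 hW x)) (hf_cmp hτ hx)
  have h5 := hf_add (hf_add (hf_sub (hf_sub h1 h2) h3) h4) (hf_cmul ε (hf_sq_snd x))
  exact hf_congr h5 (by ring) (by ring)

end Helper87.NF.H42

end
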